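import Mathlib

/-!
The lattice `ω + 1` is attained by a bounded operator on `ℓ²(ℕ)` that is not a translate of a
compact operator (and has distance at least 1 from all of them).
-/

namespace Pool.Agent.Lib.OmegaOne

open Filter Topology

/-- The Hilbert space of square-summable complex sequences. -/
noncomputable abbrev H := lp (fun _ : ℕ => ℂ) 2

/-- The lattice of closed invariant subspaces of `A`, ordered by inclusion. -/
abbrev LatInv {E : Type*} [NormedAddCommGroup E] [InnerProductSpace ℂ E] (A : E →L[ℂ] E) :=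
  {M : Submodule ℂ E // IsClosed (M : Set E) ∧ ∀ x ∈ M, A x ∈ M}

/-- the weights -/
noncomputable def w (n : ℕ) : ℝ := if Even n then 1 else (1 / 2) ^ n

lemma w_pos (n : ℕ) : 0 < w n := by
  unfold w; split_ifs <;> positivity

lemma w_le_one (n : ℕ) : w n ≤ 1 := by
  unfold w; split_ifs
  · exact le_rfl
  · exact pow_le_one₀ (by norm_num) (by norm_num)

lemma w_two (n : ℕ) : w (n + 2) ≤ w n := by
  unfold w
  have h : Even (n + 2) ↔ Even n := by simp [Nat.even_add]
  simp only [h]
  split_ifs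
  · exact le_rfl
  · exact pow_le_pow_of_le_one (by norm_num) (by norm_num) (by omega)

lemma w_four (n : ℕ) : w (n + 2) * w (n + 3) = (1 / 4) * (w n * w (n + 1)) := by
  unfold w
  have h2 : Even (n + 2) ↔ Even n := by simp [Nat.even_add]
  have h3 : Even (n + 3) ↔ ¬ Even n := by
    rw [show n + 3 = (n + 1) + 2 by ring]; simp [Nat.even_add]
  have h1 : Even (n + 1) ↔ ¬ Even n := by simp [Nat.even_add]
  simp only [h1, h2, h3]
  by_cases h : Even n
  · simp only [h, if_true, not_true, if_false]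
    rw [show n + 3 = (n + 1) + 2 by ring, pow_add]; ring
  · simp only [h, if_false, not_false_eq_true, if_true]
    rw [pow_add]; ring

/-- product of `m` consecutive weights -/
noncomputable def P (k m : ℕ) : ℝ := ∏ l ∈ Finset.range m, w (k + l)

lemma P_pos (k m : ℕ) : 0 < P k m := Finset.prod_pos fun _ _ => w_pos _

lemma P_succ (k m : ℕ) : P k (m + 1) = P k m * w (k + m) := Finset.prod_range_succ _ _

lemma P_shift (k m : ℕ) : P (k + 1) m * w k = P k m * w (k + m) := by
  rw [← P_succ]
  unfold P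
  rw [Finset.prod_range_succ']
  congr 1
  apply Finset.prod_congr rfl
  intro l _
  congr 1
  ring

lemma P_two (j : ℕ) : ∀ m, P (j + 2) m ≤ (1 / 4) ^ (m / 2) * P j m
  | 0 => by simp [P]
  | 1 => by simp [P]; exact w_two j
  | m + 2 => by
    have ih := P_two j m
    rw [P_succ, P_succ, P_succ, P_succ]
    have h : w (j + 2 + m) * w (j + 2 + (m + 1)) = (1 / 4) * (w (j + m) * w (j + (m + 1))) := by
      have := w_four (j + m)
      rw [show j + 2 + m = j + m + 2 by ring, show j + 2 + (m + 1) = j + m + 3 by ring,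
        show j + (m + 1) = j + m + 1 by ring]
      exact this
    have hd : (m + 2) / 2 = m / 2 + 1 := by omega
    rw [hd, pow_succ]
    have h0 : 0 ≤ w (j + m) * w (j + (m + 1)) := by
      have := w_pos (j + m); have := w_pos (j + (m + 1)); positivity
    calc P (j + 2) m * w (j + 2 + m) * w (j + 2 + (m + 1))
        = P (j + 2) m * ((1 / 4) * (w (j + m) * w (j + (m + 1)))) := by rw [← h]; ring
      _ ≤ ((1 / 4) ^ (m / 2) * P j m) * ((1 / 4) * (w (j + m) * w (j + (m + 1)))) := by
          apply mul_le_mul_of_nonneg_right ih; positivity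
      _ = _ := by ring

lemma P_even (j m : ℕ) : ∀ k, P (j + 2 * k) m ≤ (1 / 4) ^ (k * (m / 2)) * P j m
  | 0 => by simp
  | k + 1 => by
    have ih := P_even j m k
    have h := P_two (j + 2 * k) m
    rw [show j + 2 * (k + 1) = j + 2 * k + 2 by ring]
    calc P (j + 2 * k + 2) m ≤ (1 / 4) ^ (m / 2) * P (j + 2 * k) m := h
      _ ≤ (1 / 4) ^ (m / 2) * ((1 / 4) ^ (k * (m / 2)) * P j m) :=
          mul_le_mul_of_nonneg_left ih (by positivity)
      _ = _ := by rw [← mul_assoc, ← pow_add]; congr 2; ring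

lemma P_gen (j m i : ℕ) : P (j + i) m ≤ (w j)⁻¹ * (1 / 4) ^ (i / 2 * (m / 2)) * P j m := by
  have hw : 1 ≤ (w j)⁻¹ := (one_le_inv₀ (w_pos j)).2 (w_le_one j)
  have hP := P_pos j m
  rcases Nat.even_or_odd' i with ⟨k, rfl | rfl⟩
  · have h := P_even j m k
    rw [show 2 * k / 2 = k by omega]
    calc P (j + 2 * k) m ≤ 1 * ((1 / 4) ^ (k * (m / 2)) * P j m) := by rw [one_mul]; exact h
      _ ≤ (w j)⁻¹ * ((1 / 4) ^ (k * (m / 2)) * P j m) :=
          mul_le_mul_of_nonneg_right hw (by positivity)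
      _ = _ := by ring
  · have h := P_even (j + 1) m k
    have h1 : P (j + 1) m ≤ (w j)⁻¹ * P j m := by
      have := P_shift j m
      have h2 : P (j + 1) m = (w j)⁻¹ * (P j m * w (j + m)) := by
        rw [← this, mul_comm (P (j + 1) m), ← mul_assoc, inv_mul_cancel₀ (w_pos j).ne', one_mul]
      rw [h2]
      apply mul_le_mul_of_nonneg_left _ (by have := w_pos j; positivity)
      calc P j m * w (j + m) ≤ P j m * 1 := mul_le_mul_of_nonneg_left (w_le_one _) hP.le
        _ = P j m := mul_one _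
    rw [show (2 * k + 1) / 2 = k by omega, show j + (2 * k + 1) = j + 1 + 2 * k by ring]
    calc P (j + 1 + 2 * k) m ≤ (1 / 4) ^ (k * (m / 2)) * P (j + 1) m := h
      _ ≤ (1 / 4) ^ (k * (m / 2)) * ((w j)⁻¹ * P j m) :=
          mul_le_mul_of_nonneg_left h1 (by positivity)
      _ = _ := by ring

lemma htwo : 0 < (2 : ENNReal).toReal := by norm_num

lemma summ (x : H) : Summable fun i => ‖x i‖ ^ (2 : ℕ) := by
  have := (lp.memℓp x).summable htwo
  simpa using this

lemma norm_sq (x : H) : ‖x‖ ^ 2 = ∑' i, ‖x i‖ ^ (2 : ℕ) := by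
  have := lp.norm_rpow_eq_tsum htwo x
  simpa using this

lemma mem_of_summ {f : ℕ → ℂ} (h : Summable fun i => ‖f i‖ ^ (2 : ℕ)) : Memℓp f 2 := by
  apply memℓp_gen
  simpa using h

lemma shift_summ (x : H) : Summable fun k => ‖(w k : ℂ) * x (k + 1)‖ ^ (2 : ℕ) := by
  have h := (summable_nat_add_iff 1).2 (summ x)
  refine Summable.of_nonneg_of_le (fun _ => by positivity) (fun k => ?_) h
  rw [norm_mul, Complex.norm_real, Real.norm_of_nonneg (w_pos k).le]
  apply pow_le_pow_left₀ (by have := w_pos k; positivity)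
  calc w k * ‖x (k + 1)‖ ≤ 1 * ‖x (k + 1)‖ :=
        mul_le_mul_of_nonneg_right (w_le_one k) (norm_nonneg _)
    _ = _ := one_mul _

/-- the backward weighted shift, `(B x) k = w k * x (k + 1)` -/
noncomputable def B : H →L[ℂ] H :=
  LinearMap.mkContinuous
    { toFun := fun x => ⟨fun k => (w k : ℂ) * x (k + 1), mem_of_summ (shift_summ x)⟩
      map_add' := fun x y => by
        ext k; simp [mul_add]
      map_smul' := fun c x => by
        ext k; simp; ring } 1 (by
    intro x
    rw [one_mul]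
    have h0 : ‖(⟨fun k => (w k : ℂ) * x (k + 1), mem_of_summ (shift_summ x)⟩ : H)‖ ^ 2 ≤ ‖x‖ ^ 2 := by
      rw [norm_sq, norm_sq]
      calc ∑' k, ‖(w k : ℂ) * x (k + 1)‖ ^ (2 : ℕ) ≤ ∑' k, ‖x (k + 1)‖ ^ (2 : ℕ) := by
            apply Summable.tsum_le_tsum _ (shift_summ x) ((summable_nat_add_iff 1).2 (summ x))
            intro k
            rw [norm_mul, Complex.norm_real, Real.norm_of_nonneg (w_pos k).le]
            apply pow_le_pow_left₀ (by have := w_pos k; positivity)
            calc w k * ‖x (k + 1)‖ ≤ 1 * ‖x (k + 1)‖ :=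
                  mul_le_mul_of_nonneg_right (w_le_one k) (norm_nonneg _)
              _ = _ := one_mul _
        _ ≤ ∑' k, ‖x k‖ ^ (2 : ℕ) := by
            have := (summ x).sum_add_tsum_nat_add 1
            rw [← this]
            have : 0 ≤ ∑ i ∈ Finset.range 1, ‖x i‖ ^ 2 := Finset.sum_nonneg fun _ _ => by positivity
            linarith
    exact (pow_le_pow_iff_left₀ (norm_nonneg _) (norm_nonneg _) two_ne_zero).1 h0)

lemma B_apply (x : H) (k : ℕ) : (B x) k = (w k : ℂ) * x (k + 1) := rfl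

lemma B_pow_apply (m : ℕ) : ∀ (x : H) (k : ℕ), ((B ^ m) x) k = (P k m : ℂ) * x (k + m) := by
  induction m with
  | zero => intro x k; simp [P]
  | succ m ih =>
    intro x k
    rw [pow_succ]
    change ((B ^ m) (B x)) k = _
    rw [ih, B_apply, P_succ]
    push_cast
    rw [mul_assoc, add_assoc]

/-- the basis vectors -/
noncomputable def e (j : ℕ) : H := lp.single 2 j (1 : ℂ)

lemma e_apply (j k : ℕ) : (e j) k = if k = j then 1 else 0 := by
  unfold e
  by_cases h : k = j
  · subst h; simp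
  · rw [lp.single_apply_ne _ _ _ h]; simp [h]

lemma sum_e_apply (s : Finset ℕ) (c : ℕ → ℂ) (k : ℕ) :
    (∑ i ∈ s, c i • e i : H) k = if k ∈ s then c k else 0 := by
  have : (∑ i ∈ s, c i • e i : H) k = ∑ i ∈ s, c i * (e i) k := by
    rw [lp.coeFn_sum]; simp
  rw [this]
  simp only [e_apply]
  rw [Finset.sum_congr rfl (fun i _ => by rw [mul_ite, mul_one, mul_zero])]
  rw [Finset.sum_ite_eq]

lemma B_e_zero : B (e 0) = 0 := by
  ext k; rw [B_apply, e_apply]; simp

lemma B_e_succ (j : ℕ) : B (e (j + 1)) = (w j : ℂ) • e j := by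
  ext k
  rw [B_apply, e_apply]
  have : ((w j : ℂ) • e j : H) k = (w j : ℂ) * (e j) k := rfl
  rw [this, e_apply]
  by_cases h : k = j
  · subst h; simp
  · simp [h]

end Pool.Agent.Lib.OmegaOne
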