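import Mathlib
import Pool.Agent.Lib.OmegaOne.Basic

/-!
The closed invariant subspaces of the backward weighted shift `B`.
-/

namespace Pool.Agent.Lib.OmegaOne

open Filter Topology

lemma smul_app (c : ℂ) (x : H) (k : ℕ) : (c • x : H) k = c * x k := rfl

lemma sub_app (x y : H) (k : ℕ) : (x - y : H) k = x k - y k := rfl

lemma add_app (x y : H) (k : ℕ) : (x + y : H) k = x k + y k := rfl

/-- normalised iterates: the coordinates below `j` removed -/
lemma ymem {N : Submodule ℂ H} (hi : ∀ x ∈ N, B x ∈ N) {g : H} (hg : g ∈ N) {j : ℕ}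
    (he : ∀ k < j, e k ∈ N) {m : ℕ} (hgm : g (j + m) ≠ 0) :
    ∃ y ∈ N, (∀ k < j, y k = 0) ∧
      ∀ i, y (j + i) = (P (j + i) m / P j m : ℝ) * (g (j + i + m) / g (j + m)) := by
  have hpow : ∀ n, ∀ x ∈ N, (B ^ n) x ∈ N := by
    intro n
    induction n with
    | zero => intro x hx; simpa using hx
    | succ n ih => intro x hx; rw [pow_succ]; exact ih _ (hi x hx)
  have hP : ((P j m : ℝ) : ℂ) ≠ 0 := by exact_mod_cast (P_pos j m).ne'
  refine ⟨((P j m : ℂ) * g (j + m))⁻¹ •
    ((B ^ m) g - ∑ k ∈ Finset.range j, ((B ^ m) g) k • e k), ?_, ?_, ?_⟩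
  · apply N.smul_mem
    apply N.sub_mem (hpow m g hg)
    apply N.sum_mem
    intro k hk
    exact N.smul_mem _ (he k (Finset.mem_range.1 hk))
  · intro k hk
    rw [smul_app, sub_app, sum_e_apply]
    simp [hk]
  · intro i
    rw [smul_app, sub_app, sum_e_apply, B_pow_apply]
    have : ¬ (j + i) ∈ Finset.range j := by simp
    rw [if_neg this, sub_zero]
    push_cast
    field_simp

/-- a vector with last index `d` -/
lemma fin_case {N : Submodule ℂ H} (hi : ∀ x ∈ N, B x ∈ N) {g : H} (hg : g ∈ N) {d : ℕ}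
    (hd : g d ≠ 0) (hz : ∀ k, d < k → g k = 0) : ∀ j ≤ d, e j ∈ N := by
  intro j
  induction j using Nat.strong_induction_on with
  | _ j ih =>
    intro hj
    obtain ⟨m, rfl⟩ := Nat.exists_eq_add_of_le hj
    obtain ⟨y, hy, h0, h1⟩ := ymem hi hg (fun k hk => ih k hk (by omega)) (m := m) hd
    have : y = e j := by
      ext k
      rw [e_apply]
      rcases lt_trichotomy k j with h | h | h
      · rw [h0 k h, if_neg h.ne]
      · subst h
        have := h1 0
        simp only [add_zero] at this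
        rw [this, if_pos rfl, div_self (P_pos k m).ne', div_self hd]
        simp
      · obtain ⟨i, rfl⟩ := Nat.exists_eq_add_of_lt h
        rw [if_neg (by omega)]
        have := h1 (i + 1)
        rw [show j + (i + 1) = j + i + 1 by ring] at this
        rw [this, hz (j + i + 1 + m) (by omega)]
        simp
    rw [← this]; exact hy

lemma norm_le_geom (z : H) {C : ℝ} (hC : 0 ≤ C) (h : ∀ k, ‖z k‖ ≤ C * (1 / 2) ^ k) :
    ‖z‖ ≤ 2 * C := by
  have h1 : ‖z‖ ^ 2 ≤ (2 * C) ^ 2 := by
    rw [norm_sq]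
    have hs : Summable fun k : ℕ => C ^ 2 * (1 / 4 : ℝ) ^ k :=
      (summable_geometric_of_lt_one (by norm_num) (by norm_num)).mul_left _
    calc ∑' k, ‖z k‖ ^ (2 : ℕ) ≤ ∑' k : ℕ, C ^ 2 * (1 / 4 : ℝ) ^ k := by
          apply Summable.tsum_le_tsum _ (summ z) hs
          intro k
          calc ‖z k‖ ^ 2 ≤ (C * (1 / 2) ^ k) ^ 2 := pow_le_pow_left₀ (norm_nonneg _) (h k) 2
            _ = C ^ 2 * (1 / 4) ^ k := by
                rw [mul_pow, ← pow_mul, mul_comm k 2, pow_mul]; norm_num
      _ = C ^ 2 * (1 - 1 / 4)⁻¹ := by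
          rw [tsum_mul_left, tsum_geometric_of_lt_one (by norm_num) (by norm_num)]
      _ ≤ (2 * C) ^ 2 := by
          have : 0 ≤ C ^ 2 := by positivity
          nlinarith
  exact (pow_le_pow_iff_left₀ (norm_nonneg _) (by positivity) two_ne_zero).1 h1

lemma tends_zero (g : H) : Tendsto (fun n => ‖g n‖) atTop (𝓝 0) := by
  have h := (summ g).tendsto_atTop_zero
  have h2 := h.sqrt
  simpa [Real.sqrt_sq_eq_abs] using h2

/-- a dominating index -/
lemma dominate (g : H) (hg : ∀ d, ∃ n ≥ d, g n ≠ 0) (K : ℕ) :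
    ∃ n ≥ K, g n ≠ 0 ∧ ∀ i, n ≤ i → ‖g i‖ ≤ ‖g n‖ := by
  obtain ⟨n0, hn0, h0⟩ := hg K
  have hp : 0 < ‖g n0‖ := norm_pos_iff.2 h0
  obtain ⟨M, hM⟩ := eventually_atTop.1 ((tendsto_order.1 (tends_zero g)).2 _ hp)
  have hne : (Finset.Icc K (max n0 M)).Nonempty :=
    ⟨n0, Finset.mem_Icc.2 ⟨hn0, le_max_left _ _⟩⟩
  obtain ⟨n, hn, hmax⟩ := Finset.exists_max_image _ (fun i => ‖g i‖) hne
  rw [Finset.mem_Icc] at hn
  have h1 : ‖g n0‖ ≤ ‖g n‖ := hmax n0 (Finset.mem_Icc.2 ⟨hn0, le_max_left _ _⟩)
  refine ⟨n, hn.1, norm_pos_iff.1 (hp.trans_le h1), ?_⟩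
  intro i hi
  by_cases h : i ≤ max n0 M
  · exact hmax i (Finset.mem_Icc.2 ⟨hn.1.trans hi, h⟩)
  · have : M ≤ i := by have := le_max_right n0 M; omega
    exact (hM i this).le.trans h1

/-- a vector of infinite support -/
lemma inf_case {N : Submodule ℂ H} (hc : IsClosed (N : Set H)) (hi : ∀ x ∈ N, B x ∈ N) {g : H}
    (hg : g ∈ N) (hinf : ∀ d, ∃ n ≥ d, g n ≠ 0) : ∀ j, e j ∈ N := by
  intro j
  induction j using Nat.strong_induction_on with
  | _ j ih =>
    set C : ℝ := 16 * (w j)⁻¹ * 2 ^ j with hC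
    have hCpos : 0 < C := by have := w_pos j; positivity
    -- approximation
    have happ : ∀ t : ℕ, ∃ y ∈ N, ∃ c : ℂ, ‖c‖ ≤ (w j)⁻¹ ∧
        ‖y - (e j + c • e (j + 1))‖ ≤ C * (1 / 4) ^ t := by
      intro t
      obtain ⟨n, hn, hgn, hdom⟩ := dominate g hinf (j + 2 * (t + 1))
      obtain ⟨m, rfl⟩ := Nat.exists_eq_add_of_le (show j ≤ n by omega)
      have hm : t + 1 ≤ m / 2 := by omega
      obtain ⟨y, hy, h0, h1⟩ := ymem hi hg (fun k hk => ih k hk) (m := m) hgn
      have hb : ∀ i, ‖y (j + i)‖ ≤ (w j)⁻¹ * (1 / 4) ^ (i / 2 * (m / 2)) := by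
        intro i
        rw [h1 i, norm_mul, Complex.norm_real, Real.norm_of_nonneg
          (div_nonneg (P_pos _ _).le (P_pos _ _).le), norm_div]
        have h2 : ‖g (j + i + m)‖ / ‖g (j + m)‖ ≤ 1 :=
          (div_le_one (norm_pos_iff.2 hgn)).2 (hdom _ (by omega))
        have h3 : P (j + i) m / P j m ≤ (w j)⁻¹ * (1 / 4) ^ (i / 2 * (m / 2)) :=
          (div_le_iff₀ (P_pos j m)).2 (P_gen j m i)
        calc P (j + i) m / P j m * (‖g (j + i + m)‖ / ‖g (j + m)‖)
            ≤ ((w j)⁻¹ * (1 / 4) ^ (i / 2 * (m / 2))) * 1 :=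
              mul_le_mul h3 h2 (by positivity) (by have := w_pos j; positivity)
          _ = _ := mul_one _
      refine ⟨y, hy, y (j + 1), by simpa using hb 1, ?_⟩
      have hyj : y j = 1 := by
        have := h1 0
        simp only [add_zero] at this
        rw [this, div_self (P_pos j m).ne', div_self hgn]; simp
      have hz : ∀ k, ‖(y - (e j + y (j + 1) • e (j + 1)) : H) k‖ ≤
          (8 * (w j)⁻¹ * 2 ^ j * (1 / 4) ^ t) * (1 / 2) ^ k := by
        intro k
        have hpos : 0 ≤ (8 * (w j)⁻¹ * 2 ^ j * (1 / 4) ^ t) * (1 / 2) ^ k := by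
          have := w_pos j; positivity
        rw [sub_app, add_app, smul_app, e_apply, e_apply]
        rcases lt_trichotomy k j with h | h | h
        · rw [h0 k h, if_neg h.ne, if_neg (by omega)]
          simpa using hpos
        · subst h
          rw [if_pos rfl, if_neg (by omega), hyj]
          simpa using hpos
        · rw [if_neg h.ne']
          by_cases h' : k = j + 1
          · subst h'
            simpa using hpos
          · rw [if_neg h']
            obtain ⟨i, rfl⟩ := Nat.exists_eq_add_of_le h.le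
            rw [mul_zero, add_zero, sub_zero]
            refine (hb i).trans ?_
            have hi2 : 2 ≤ i := by omega
            have hw := w_pos j
            have hexp : t + i / 2 ≤ i / 2 * (m / 2) := by
              have : 1 ≤ i / 2 := by omega
              obtain ⟨a, ha⟩ := Nat.exists_eq_add_of_le this
              obtain ⟨b, hb'⟩ := Nat.exists_eq_add_of_le hm
              rw [ha, hb']
              nlinarith
            have h4 : (1 / 4 : ℝ) ^ (i / 2 * (m / 2)) ≤ (1 / 4) ^ t * (1 / 4) ^ (i / 2) := by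
              rw [← pow_add]
              exact pow_le_pow_of_le_one (by norm_num) (by norm_num) hexp
            have h5 : (1 / 4 : ℝ) ^ (i / 2) ≤ 2 * (1 / 2) ^ i := by
              have : (1 / 4 : ℝ) ^ (i / 2) = (1 / 2) ^ (2 * (i / 2)) := by
                rw [pow_mul]; norm_num
              rw [this]
              have h6 : i ≤ 2 * (i / 2) + 1 := by omega
              have h7 : (1 / 2 : ℝ) ^ (2 * (i / 2) + 1) ≤ (1 / 2) ^ i :=
                pow_le_pow_of_le_one (by norm_num) (by norm_num) h6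
              rw [pow_succ] at h7
              linarith
            have h8 : (2 : ℝ) ^ j * (1 / 2) ^ (j + i) = (1 / 2) ^ i := by
              rw [pow_add, ← mul_assoc, ← mul_pow]; norm_num
            have hwi : 0 < (w j)⁻¹ := inv_pos.2 hw
            calc (w j)⁻¹ * (1 / 4) ^ (i / 2 * (m / 2))
                ≤ (w j)⁻¹ * ((1 / 4) ^ t * (1 / 4) ^ (i / 2)) :=
                  mul_le_mul_of_nonneg_left h4 hwi.le
              _ ≤ (w j)⁻¹ * ((1 / 4) ^ t * (2 * (1 / 2) ^ i)) := by
                  apply mul_le_mul_of_nonneg_left _ hwi.le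
                  exact mul_le_mul_of_nonneg_left h5 (by positivity)
              _ ≤ 8 * (w j)⁻¹ * (1 / 4) ^ t * (1 / 2) ^ i := by
                  have : 0 ≤ (w j)⁻¹ * ((1 / 4) ^ t * (1 / 2) ^ i) := by positivity
                  nlinarith
              _ = 8 * (w j)⁻¹ * (1 / 4) ^ t * (2 ^ j * (1 / 2) ^ (j + i)) := by rw [h8]
              _ = _ := by ring
      have := norm_le_geom _ (by have := w_pos j; positivity) hz
      calc _ ≤ _ := this
        _ = C * (1 / 4) ^ t := by rw [hC]; ring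
    choose y hy c hcb hd using happ
    have hcomp : IsCompact (Metric.closedBall (0 : ℂ) (w j)⁻¹) := isCompact_closedBall _ _
    obtain ⟨c0, -, φ, hφ, hlim⟩ := hcomp.tendsto_subseq (x := c) (fun t => by
      simpa using hcb t)
    have hlim2 : Tendsto (fun t => y (φ t)) atTop (𝓝 (e j + c0 • e (j + 1))) := by
      have h1 : Tendsto (fun t => e j + c (φ t) • e (j + 1)) atTop (𝓝 (e j + c0 • e (j + 1))) :=
        tendsto_const_nhds.add (hlim.smul_const _)
      have h2 : Tendsto (fun t => y (φ t) - (e j + c (φ t) • e (j + 1))) atTop (𝓝 0) := by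
        rw [tendsto_zero_iff_norm_tendsto_zero]
        have h3 : Tendsto (fun t => C * (1 / 4 : ℝ) ^ (φ t)) atTop (𝓝 0) := by
          have := (tendsto_pow_atTop_nhds_zero_of_lt_one (r := (1 / 4 : ℝ)) (by norm_num)
            (by norm_num)).comp hφ.tendsto_atTop
          simpa using this.const_mul C
        exact squeeze_zero (fun _ => norm_nonneg _) (fun t => hd (φ t)) h3
      have := h2.add h1
      simpa using this
    have hv : e j + c0 • e (j + 1) ∈ N :=
      hc.mem_of_tendsto hlim2 (Eventually.of_forall fun t => hy _)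
    have hBe : B (e j) ∈ N := by
      rcases j with _ | j
      · rw [B_e_zero]; exact N.zero_mem
      · rw [B_e_succ]; exact N.smul_mem _ (ih j (by omega))
    have hBv := hi _ hv
    rw [map_add, map_smul, B_e_succ] at hBv
    have h3 : c0 • (w j : ℂ) • e j ∈ N := by
      have := N.sub_mem hBv hBe
      simpa using this
    by_cases h0 : c0 = 0
    · subst h0; simpa using hv
    · rw [smul_smul] at h3
      have hne : c0 * (w j : ℂ) ≠ 0 := mul_ne_zero h0 (by exact_mod_cast (w_pos j).ne')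
      have := N.smul_mem (c0 * (w j : ℂ))⁻¹ h3
      rwa [smul_smul, inv_mul_cancel₀ hne, one_smul] at this

lemma top_of_all {N : Submodule ℂ H} (hc : IsClosed (N : Set H)) (h : ∀ j, e j ∈ N) : N = ⊤ := by
  rw [eq_top_iff]
  intro x _
  have hs := lp.hasSum_single (p := 2) (by norm_num) x
  apply hc.mem_of_tendsto hs
  apply Eventually.of_forall
  intro s
  apply N.sum_mem
  intro i _
  have : lp.single 2 i (x i) = x i • e i := by
    unfold e; rw [← lp.single_smul]; simp
  rw [this]
  exact N.smul_mem _ (h i)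

end Pool.Agent.Lib.OmegaOne
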