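import Mathlib
import Pool.Agent.Lib.OmegaOne.Main

/-!
Classification of the closed invariant subspaces of `B`, and the operator `X`.
-/

namespace Pool.Agent.Lib.OmegaOne

open Filter Topology

/-- sequences vanishing from index `r` on -/
def F (r : ℕ) : Submodule ℂ H where
  carrier := {x | ∀ k, r ≤ k → x k = 0}
  add_mem' := fun {x y} hx hy k hk => by rw [add_app, hx k hk, hy k hk, add_zero]
  zero_mem' := fun _ _ => rfl
  smul_mem' := fun c x hx k hk => by rw [smul_app, hx k hk, mul_zero]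

lemma mem_F {r : ℕ} {x : H} : x ∈ F r ↔ ∀ k, r ≤ k → x k = 0 := Iff.rfl

lemma coord_cont (k : ℕ) : Continuous (fun x : H => x k) := by
  have : LipschitzWith 1 (fun x : H => x k) := by
    apply LipschitzWith.of_dist_le_mul
    intro x y
    rw [dist_eq_norm, dist_eq_norm]
    simpa using lp.norm_apply_le_norm (p := 2) (by norm_num) (x - y) k
  exact this.continuous

lemma F_closed (r : ℕ) : IsClosed (F r : Set H) := by
  have : (F r : Set H) = ⋂ k, ⋂ (_ : r ≤ k), {x : H | x k = 0} := by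
    ext x; simp [mem_F]
  rw [this]
  exact isClosed_iInter fun k => isClosed_iInter fun _ =>
    isClosed_singleton.preimage (coord_cont k)

lemma F_inv (r : ℕ) : ∀ x ∈ F r, B x ∈ F r := by
  intro x hx k hk
  rw [B_apply, hx (k + 1) (by omega), mul_zero]

lemma e_mem_F {j r : ℕ} : e j ∈ F r ↔ j < r := by
  constructor
  · intro h
    by_contra hj
    have := h j (by omega)
    rw [e_apply, if_pos rfl] at this
    exact one_ne_zero this
  · intro h k hk
    rw [e_apply, if_neg (by omega)]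

lemma F_le {N : Submodule ℂ H} {r : ℕ} (h : ∀ i < r, e i ∈ N) : F r ≤ N := by
  intro x hx
  have : x = ∑ i ∈ Finset.range r, x i • e i := by
    ext k
    rw [sum_e_apply]
    split_ifs with hk
    · rfl
    · exact hx k (by simpa using hk)
  rw [this]
  exact N.sum_mem fun i hi => N.smul_mem _ (h i (Finset.mem_range.1 hi))

lemma top_of_inf {N : Submodule ℂ H} (hc : IsClosed (N : Set H)) (hi : ∀ x ∈ N, B x ∈ N) {g : H}
    (hg : g ∈ N) (hinf : ∀ d, ∃ n ≥ d, g n ≠ 0) : N = ⊤ :=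
  top_of_all hc (inf_case hc hi hg hinf)

lemma classify {N : Submodule ℂ H} (hc : IsClosed (N : Set H)) (hi : ∀ x ∈ N, B x ∈ N) :
    N = ⊤ ∨ ∃ r, N = F r := by
  classical
  by_cases h : ∀ j, e j ∈ N
  · exact Or.inl (top_of_all hc h)
  · push Not at h
    right
    refine ⟨Nat.find h, le_antisymm ?_ (F_le fun i hi' => ?_)⟩
    · intro g hg k hk
      by_contra hgk
      by_cases hinf : ∀ d, ∃ n ≥ d, g n ≠ 0
      · exact Nat.find_spec h (inf_case hc hi hg hinf _)
      · push Not at hinf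
        obtain ⟨D, hD⟩ := hinf
        have hkD : k ≤ D := by
          by_contra hcon
          exact hgk (hD k (by omega))
        have hd : g (Nat.findGreatest (fun n => g n ≠ 0) D) ≠ 0 :=
          Nat.findGreatest_spec (P := fun n => g n ≠ 0) hkD hgk
        have hle : k ≤ Nat.findGreatest (fun n => g n ≠ 0) D :=
          Nat.le_findGreatest hkD hgk
        refine Nat.find_spec h (fin_case hi hg hd ?_ _ (hk.trans hle))
        intro m hm
        by_cases hmD : m ≤ D
        · have := Nat.findGreatest_is_greatest hm hmD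
          simpa using this
        · exact hD m (by omega)
    · have := Nat.find_min h hi'
      simpa using this

section X

variable (K : Type*) [NormedAddCommGroup K] [InnerProductSpace ℂ K]
  [TopologicalSpace.SeparableSpace K]

/-- a bounded sequence of vectors of `K` that separates points -/
noncomputable def u (n : ℕ) : K :=
  (((1 + ‖TopologicalSpace.denseSeq K n‖)⁻¹ : ℝ) : ℂ) • TopologicalSpace.denseSeq K n

lemma u_norm (n : ℕ) : ‖u K n‖ ≤ 1 := by
  unfold u
  rw [norm_smul, Complex.norm_real, norm_inv, Real.norm_of_nonneg (by positivity)]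
  rw [inv_mul_le_iff₀ (by positivity)]
  linarith

variable {K}

lemma u_sep {k : K} (hk : k ≠ 0) : ∃ n, inner ℂ (u K n) k ≠ 0 := by
  by_contra hcon
  push Not at hcon
  apply hk
  have h1 : (fun x : K => inner ℂ x k) = fun _ => (0 : ℂ) := by
    apply (TopologicalSpace.denseRange_denseSeq K).equalizer (by fun_prop) continuous_const
    funext n
    have := hcon n
    unfold u at this
    rw [inner_smul_left] at this
    have h2 : (starRingEnd ℂ) (((1 + ‖TopologicalSpace.denseSeq K n‖)⁻¹ : ℝ) : ℂ) ≠ 0 := by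
      rw [Complex.conj_ofReal]
      have : (1 + ‖TopologicalSpace.denseSeq K n‖)⁻¹ ≠ 0 := by positivity
      exact_mod_cast this
    exact (mul_eq_zero.1 this).resolve_left h2
  have := congrFun h1 k
  simpa using this

/-- each number is `nu j` for infinitely many odd `j` -/
def nu (j : ℕ) : ℕ := (Nat.unpair (j / 2)).1

variable (K) in
/-- coordinates of `X k` -/
noncomputable def xf (k : K) (j : ℕ) : ℂ := (((3 / 4 : ℝ) ^ j : ℝ) : ℂ) * inner ℂ (u K (nu j)) k

lemma xf_norm (k : K) (j : ℕ) : ‖xf K k j‖ ≤ (3 / 4) ^ j * ‖k‖ := by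
  unfold xf
  rw [norm_mul, Complex.norm_real, Real.norm_of_nonneg (by positivity)]
  apply mul_le_mul_of_nonneg_left _ (by positivity)
  calc ‖inner ℂ (u K (nu j)) k‖ ≤ ‖u K (nu j)‖ * ‖k‖ := norm_inner_le_norm _ _
    _ ≤ 1 * ‖k‖ := mul_le_mul_of_nonneg_right (u_norm K _) (norm_nonneg _)
    _ = ‖k‖ := one_mul _

lemma geo_summ (k : K) : Summable fun j : ℕ => ‖k‖ ^ 2 * (9 / 16 : ℝ) ^ j :=
  (summable_geometric_of_lt_one (by norm_num) (by norm_num)).mul_left _

lemma xf_sq (k : K) (j : ℕ) : ‖xf K k j‖ ^ 2 ≤ ‖k‖ ^ 2 * (9 / 16) ^ j := by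
  calc ‖xf K k j‖ ^ 2 ≤ ((3 / 4) ^ j * ‖k‖) ^ 2 :=
        pow_le_pow_left₀ (norm_nonneg _) (xf_norm k j) 2
    _ = ‖k‖ ^ 2 * (9 / 16) ^ j := by
        rw [mul_pow, ← pow_mul, mul_comm j 2, pow_mul]; norm_num; ring

lemma xf_summ (k : K) : Summable fun j => ‖xf K k j‖ ^ (2 : ℕ) :=
  Summable.of_nonneg_of_le (fun _ => by positivity) (xf_sq k) (geo_summ k)

variable (K) in
/-- the operator `X : K → H` -/
noncomputable def X : K →L[ℂ] H :=
  LinearMap.mkContinuous
    { toFun := fun k => ⟨xf K k, mem_of_summ (xf_summ k)⟩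
      map_add' := fun x y => by
        ext j
        change xf K (x + y) j = xf K x j + xf K y j
        unfold xf; rw [inner_add_right]; ring
      map_smul' := fun c x => by
        ext j
        change xf K (c • x) j = c * xf K x j
        unfold xf; rw [inner_smul_right]; ring } 2 (by
    intro k
    have h0 : ‖(⟨xf K k, mem_of_summ (xf_summ k)⟩ : H)‖ ^ 2 ≤ (2 * ‖k‖) ^ 2 := by
      rw [norm_sq]
      calc ∑' j, ‖xf K k j‖ ^ (2 : ℕ) ≤ ∑' j : ℕ, ‖k‖ ^ 2 * (9 / 16 : ℝ) ^ j :=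
            Summable.tsum_le_tsum (xf_sq k) (xf_summ k) (geo_summ k)
        _ = ‖k‖ ^ 2 * (1 - 9 / 16)⁻¹ := by
            rw [tsum_mul_left, tsum_geometric_of_lt_one (by norm_num) (by norm_num)]
        _ ≤ (2 * ‖k‖) ^ 2 := by
            have : 0 ≤ ‖k‖ ^ 2 := by positivity
            nlinarith
    exact (pow_le_pow_iff_left₀ (norm_nonneg _) (by positivity) two_ne_zero).1 h0)

lemma X_apply (k : K) (j : ℕ) : (X K k) j = xf K k j := rfl

lemma inf_supp (h : H) {k : K} (hk : k ≠ 0) : ∀ d, ∃ n ≥ d, (B h + X K k) n ≠ 0 := by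
  intro d
  obtain ⟨n0, hn0⟩ := u_sep hk
  have hc : 0 < ‖inner ℂ (u K n0) k‖ := norm_pos_iff.2 hn0
  have hlim : Tendsto (fun j : ℕ => (2 / 3 : ℝ) ^ j * ‖h‖) atTop (𝓝 0) := by
    have := (tendsto_pow_atTop_nhds_zero_of_lt_one (r := (2 / 3 : ℝ)) (by norm_num)
      (by norm_num)).mul_const ‖h‖
    simpa using this
  obtain ⟨J, hJ⟩ := eventually_atTop.1 ((tendsto_order.1 hlim).2 _ hc)
  set i := Nat.pair n0 (max d J) with hi
  have hi1 : max d J ≤ i := Nat.right_le_pair _ _
  refine ⟨2 * i + 1, ?_, ?_⟩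
  · have := le_max_left d J; omega
  intro h0
  rw [add_app, X_apply, B_apply] at h0
  have hnu : nu (2 * i + 1) = n0 := by
    unfold nu
    rw [show (2 * i + 1) / 2 = i by omega, hi, Nat.unpair_pair]
  have hw : w (2 * i + 1) = (1 / 2) ^ (2 * i + 1) := by
    unfold w
    rw [if_neg (by simp)]
  unfold xf at h0
  rw [hnu, hw] at h0
  have h1 : ‖((((3 / 4 : ℝ) ^ (2 * i + 1) : ℝ)) : ℂ) * inner ℂ (u K n0) k‖ =
      ‖((((1 / 2 : ℝ) ^ (2 * i + 1) : ℝ)) : ℂ) * h (2 * i + 1 + 1)‖ := by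
    rw [eq_neg_of_add_eq_zero_right h0, norm_neg]
  rw [norm_mul, norm_mul, Complex.norm_real, Complex.norm_real,
    Real.norm_of_nonneg (by positivity), Real.norm_of_nonneg (by positivity)] at h1
  have h2 : ‖h (2 * i + 1 + 1)‖ ≤ ‖h‖ := lp.norm_apply_le_norm (by norm_num) h _
  have h3 := hJ (2 * i + 1) (by have := le_max_right d J; omega)
  have h4 : (1 / 2 : ℝ) ^ (2 * i + 1) = (3 / 4) ^ (2 * i + 1) * (2 / 3) ^ (2 * i + 1) := by
    rw [← mul_pow]; norm_num
  rw [h4, mul_assoc] at h1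
  have h5 := mul_left_cancel₀ (by positivity : ((3 / 4 : ℝ) ^ (2 * i + 1)) ≠ 0) h1
  have h6 : (2 / 3 : ℝ) ^ (2 * i + 1) * ‖h (2 * i + 1 + 1)‖ ≤ (2 / 3) ^ (2 * i + 1) * ‖h‖ :=
    mul_le_mul_of_nonneg_left h2 (by positivity)
  linarith

end X

end Pool.Agent.Lib.OmegaOne
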